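import Pool.Agent.H608R4.KM.Stm

set_option autoImplicit false

/-!
Project KM, piece BU: the consequence of the Hessian with `f = x` and `f = y`.
-/

namespace Pool.Agent.TH968.KM

open Finset Pool.Agent.H608R4.KM

lemma split_term {n : ℕ} {a : Fin n → Fin n → ℝ} {x y : Fin n → ℝ}
    (hu : ∀ i, x i ^ 2 + y i ^ 2 = 1) (i j : Fin n) :
    u x y i j * (1 - u x y i j) = a i j * (u x y i j * (1 - u x y i j))
      + b a i j * (u x y i j * (1 - u x y i j)) := by
  by_cases h : i = j
  · subst h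
    have h1 : u x y i i = 1 := by
      have := hu i
      unfold u
      nlinarith
    rw [h1]; ring
  · have h1 : b a i j = 1 - a i j := by
      unfold b ind
      rw [if_neg h]; ring
    rw [h1]; ring

lemma sum_u {n : ℕ} (x y : Fin n → ℝ) : ∑ i, ∑ j, u x y i j = R1 x y := by
  unfold u R1
  rw [pow_two, pow_two, Finset.sum_mul_sum, Finset.sum_mul_sum]
  simp only [Finset.sum_add_distrib]

lemma sum_u2 {n : ℕ} {x y : Fin n → ℝ} (hu : ∀ i, x i ^ 2 + y i ^ 2 = 1) :
    ∑ i, ∑ j, u x y i j ^ 2 = ((n : ℝ) ^ 2 + R2 x y) / 2 := by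
  have h1 : (n : ℝ) ^ 2 = ∑ i : Fin n, ∑ j : Fin n, (x i ^ 2 + y i ^ 2) * (x j ^ 2 + y j ^ 2) := by
    simp only [hu]
    simp [pow_two]
  have h2 : R2 x y = ∑ i : Fin n, ∑ j : Fin n, ((x i ^ 2 - y i ^ 2) * (x j ^ 2 - y j ^ 2)
      + (2 * x i * y i) * (2 * x j * y j)) := by
    unfold R2
    rw [pow_two, pow_two, Finset.sum_mul_sum, Finset.sum_mul_sum]
    simp only [Finset.sum_add_distrib]
  rw [h1, h2, ← Finset.sum_add_distrib, Finset.sum_div]
  refine Finset.sum_congr rfl fun i _ => ?_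
  rw [← Finset.sum_add_distrib, Finset.sum_div]
  refine Finset.sum_congr rfl fun j _ => ?_
  unfold u
  ring

theorem t_BU : S_BU := by
  intro n a x y h
  have hu := h.unit
  have p1 : 0 ≤ ∑ i, ∑ j, a i j * (u x y i j * (1 - u x y i j)) := by
    have hx := h.l2 x
    have hy := h.l2 y
    have h1 : (∑ i, ∑ j, a i j * u x y i j * (x i - x j) ^ 2)
        + (∑ i, ∑ j, a i j * u x y i j * (y i - y j) ^ 2)
        = 2 * ∑ i, ∑ j, a i j * (u x y i j * (1 - u x y i j)) := by
      rw [← Finset.sum_add_distrib, Finset.mul_sum]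
      refine Finset.sum_congr rfl fun i _ => ?_
      rw [← Finset.sum_add_distrib, Finset.mul_sum]
      refine Finset.sum_congr rfl fun j _ => ?_
      have e1 : (x i - x j) ^ 2 + (y i - y j) ^ 2 = 2 * (1 - u x y i j) := by
        have := hu i
        have := hu j
        unfold u
        nlinarith
      calc a i j * u x y i j * (x i - x j) ^ 2 + a i j * u x y i j * (y i - y j) ^ 2
          = a i j * u x y i j * ((x i - x j) ^ 2 + (y i - y j) ^ 2) := by ring
        _ = 2 * (a i j * (u x y i j * (1 - u x y i j))) := by rw [e1]; ring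
    linarith
  have p2 : ∑ i, ∑ j, u x y i j * (1 - u x y i j) = R1 x y - ((n : ℝ) ^ 2 + R2 x y) / 2 := by
    rw [← sum_u, ← sum_u2 hu, ← Finset.sum_sub_distrib]
    refine Finset.sum_congr rfl fun i _ => ?_
    rw [← Finset.sum_sub_distrib]
    exact Finset.sum_congr rfl fun j _ => by ring
  refine ⟨p1, p2, ?_⟩
  have p3 : ∑ i, ∑ j, b a i j * (2 * K (u x y i j))
      = -∑ i, ∑ j, b a i j * (u x y i j * (1 - u x y i j)) := by
    rw [← Finset.sum_neg_distrib]
    refine Finset.sum_congr rfl fun i _ => ?_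
    rw [← Finset.sum_neg_distrib]
    refine Finset.sum_congr rfl fun j _ => ?_
    unfold K
    ring
  have p4 : ∑ i, ∑ j, u x y i j * (1 - u x y i j)
      = (∑ i, ∑ j, a i j * (u x y i j * (1 - u x y i j)))
        + ∑ i, ∑ j, b a i j * (u x y i j * (1 - u x y i j)) := by
    rw [← Finset.sum_add_distrib]
    refine Finset.sum_congr rfl fun i _ => ?_
    rw [← Finset.sum_add_distrib]
    exact Finset.sum_congr rfl fun j _ => split_term hu i j
  rw [p3]
  linarith

end Pool.Agent.TH968.KM
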